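import Pool.Agent.H47.THN.Targets
import Pool.Agent.H27.THN.WSQ

/-!
Board thn (MP_52e316_nt), row GK1: from the mean squares of the truncated L-functions to the second moment
of the L-functions at well spaced points in a window.
-/

set_option autoImplicit false

namespace Pool.Agent.H27.THN

open MeasureTheory Pool.Agent.H27.L1.H34.GM Pool.Agent.H27.L1.H34.GZ Pool.Agent.H27.L1.H34.GU
  Pool.Agent.H27.L1.H34.GA Pool.Agent.H27.L1.H68.GHY Pool.Agent.H27.L1.H34.GHY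
  Pool.Agent.H27.L1.H23.GB Pool.Agent.H27.L1.H34.GZZ
open Pool.Agent.H47.THN (Q2)

/-- the Lipschitz constant may be enlarged -/
lemma lip_le {m N : ℕ} [NeZero N] {D : Set (V m)} {F : Mat m → VN m N → ℂ} {P P' : ℝ}
    (h : Lip D F P) (hP : 0 ≤ P) (hPP : P ≤ P') : Lip D F P' := by
  intro w hw
  refine (h w hw).trans ?_
  have h1 : 0 ≤ sz (w - 1) := norm_nonneg _
  gcongr

/-- the second factor -/
lemma gk_fac {Nr δi x A B : ℝ} {m : ℕ} (hN : 1 ≤ Nr) (hδ : 0 < δi) (hx : 0 ≤ x)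
    (h1 : Nr ^ m * δi ^ (m ^ 2) ≤ A) (h2 : x ^ m ≤ B) :
    Nr ^ m * δi ^ (m ^ 2) * (1 + δi⁻¹ ^ m * x / Nr) ^ m ≤ 2 ^ m * (A + B) := by
  have hN0 : 0 < Nr := by linarith
  have h3 : (1 + δi⁻¹ ^ m * x / Nr) ^ m ≤ 2 ^ m * (1 + (δi⁻¹ ^ m * x / Nr) ^ m) := by
    have h4 : 0 ≤ δi⁻¹ ^ m * x / Nr := by positivity
    rcases le_total (δi⁻¹ ^ m * x / Nr) 1 with h5 | h5
    · calc (1 + δi⁻¹ ^ m * x / Nr) ^ m ≤ (1 + 1) ^ m := by gcongr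
        _ = 2 ^ m * 1 := by norm_num
        _ ≤ 2 ^ m * (1 + (δi⁻¹ ^ m * x / Nr) ^ m) := by
            gcongr
            have : 0 ≤ (δi⁻¹ ^ m * x / Nr) ^ m := by positivity
            linarith
    · calc (1 + δi⁻¹ ^ m * x / Nr) ^ m ≤ (δi⁻¹ ^ m * x / Nr + δi⁻¹ ^ m * x / Nr) ^ m := by gcongr
        _ = 2 ^ m * (δi⁻¹ ^ m * x / Nr) ^ m := by rw [← two_mul, mul_pow]
        _ ≤ 2 ^ m * (1 + (δi⁻¹ ^ m * x / Nr) ^ m) := by
            gcongr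
            linarith
  calc Nr ^ m * δi ^ (m ^ 2) * (1 + δi⁻¹ ^ m * x / Nr) ^ m ≤
      Nr ^ m * δi ^ (m ^ 2) * (2 ^ m * (1 + (δi⁻¹ ^ m * x / Nr) ^ m)) := by gcongr
    _ = 2 ^ m * (Nr ^ m * δi ^ (m ^ 2) + x ^ m) := by
        have e1 : δi⁻¹ ^ (m ^ 2) * δi ^ (m ^ 2) = 1 := by
          rw [← mul_pow, inv_mul_cancel₀ hδ.ne', one_pow]
        have e2 : (δi⁻¹ ^ m * x / Nr) ^ m = δi⁻¹ ^ (m ^ 2) * x ^ m / Nr ^ m := by
          rw [div_pow, mul_pow, ← pow_mul, sq]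
        have e3 : Nr ^ m / Nr ^ m = 1 := div_self (by positivity)
        rw [e2]
        calc Nr ^ m * δi ^ (m ^ 2) * (2 ^ m * (1 + δi⁻¹ ^ (m ^ 2) * x ^ m / Nr ^ m)) =
            2 ^ m * (Nr ^ m * δi ^ (m ^ 2) + (δi⁻¹ ^ (m ^ 2) * δi ^ (m ^ 2)) *
              (Nr ^ m / Nr ^ m) * x ^ m) := by ring
          _ = _ := by rw [e1, e3]; ring
    _ ≤ 2 ^ m * (A + B) := by gcongr

theorem pf_GK1 (hENA : T_ENA) (hHYZ : T_HYZ) : Pool.Agent.H47.THN.T_GK1 := by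
  intro m hm1 ε hε
  obtain ⟨e1, he1, he1', he1ε⟩ : ∃ e1 : ℝ, 0 < e1 ∧ e1 ≤ 1 ∧ (3 * m + 6) * e1 ≤ ε := by
    refine ⟨min 1 (ε / (3 * m + 6)), lt_min one_pos (by positivity), min_le_left _ _, ?_⟩
    have h1 : min 1 (ε / (3 * m + 6)) ≤ ε / (3 * m + 6) := min_le_right _ _
    rw [le_div_iff₀ (by positivity)] at h1
    linarith
  obtain ⟨C2, hC2, hH⟩ := hHYZ m hm1 e1 he1
  obtain ⟨k, hkd⟩ : ∃ k : ℝ → ℝ, k = fun τ => ((1 + |τ|) ^ 4)⁻¹ := ⟨_, rfl⟩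
  have hkc : Continuous k := by
    rw [hkd]
    refine Continuous.inv₀ (by fun_prop) (fun τ => ?_)
    positivity
  have hknn : ∀ τ, 0 ≤ k τ := fun τ => by rw [hkd]; positivity
  have hk1 : ∀ τ, k τ ≤ 1 * ((1 + |τ|) ^ 4)⁻¹ := fun τ => by rw [hkd, one_mul]
  obtain ⟨C2', hC2'⟩ : ∃ C2' : ℝ, C2' = max C2 1 := ⟨_, rfl⟩
  have hC2'1 : 1 ≤ C2' := by rw [hC2']; exact le_max_right _ _
  have hC2'2 : C2 ≤ C2' := by rw [hC2']; exact le_max_left _ _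
  obtain ⟨B, hB, hW⟩ := wsp_sq k hkc hknn 1 one_pos hk1
  refine ⟨e1, he1, ?_⟩
  intro c' C1 C3 hc' hc'1 hC1 hC3
  obtain ⟨S2, hS2⟩ : ∃ S2 : ℝ, S2 = ∑' j : ℤ, ((1 + |(j : ℝ)|) ^ 2)⁻¹ := ⟨_, rfl⟩
  have hS2nn : 0 ≤ S2 := by rw [hS2]; exact tsum_nonneg (fun j => by positivity)
  have hc'i : 1 ≤ c'⁻¹ := by
    rw [one_le_inv₀ hc']
    linarith
  obtain ⟨R0, hR0⟩ : ∃ R0 : ℝ, R0 = 2 * C2' * c'⁻¹ := ⟨_, rfl⟩
  have hR00 : 0 < R0 := by rw [hR0]; positivity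
  obtain ⟨G, hG⟩ : ∃ G : ℝ, G = c'⁻¹ ^ (m ^ 2) + (2 * C2') ^ m := ⟨_, rfl⟩
  have hG0 : 0 < G := by rw [hG]; positivity
  -- the final constant
  obtain ⟨K, hK⟩ : ∃ K : ℝ, K = 2 * C2 ^ 2 * (4 * C3 * c'⁻¹ ^ e1 * c'⁻¹ ^ (m ^ 2) +
    B * S2 * (C1 * R0 ^ (2 * e1) * (2 ^ m * G))) := ⟨_, rfl⟩
  have hKnn : 0 ≤ K := by rw [hK]; positivity
  refine ⟨K + 1, by positivity, ?_⟩
  intro N _ T D hSys H hH1 ι _ _ F lam W hF hW0 δ hδ hcard hdyd0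
  have hN2 := hSys.two_le
  have hN0 : (0 : ℝ) < N := by
    have : 0 < N := by omega
    exact_mod_cast this
  have hN1 : (1 : ℝ) ≤ N := by
    have : 1 ≤ N := by omega
    exact_mod_cast this
  have hH0 : 0 < H := by linarith
  have hn1 : ∀ i, nU D (F i) = 1 := fun i => (hF i).2.2
  have hnz : ∀ i, NZ (F i) := fun i => mou_nz hm1 hSys.dom (F i) (by rw [hn1 i]; exact one_ne_zero)
  have hL0 : ∀ i, ∃ L : ℂ → ℂ, IsL m 1 (lam i) L ∧ ∀ ψ : ℝ → ℂ, Wc m ψ (lam i) →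
      ∀ s : ℂ, LmA m ψ (lam i) s = L s * MelA m ψ s := fun i =>
    hENA m N T D hSys (F i) (lam i) (hF i).1 (hnz i)
  choose L hLL hLm using hL0
  refine ⟨L, hLL, ?_⟩
  intro t0 J hJ hJH
  -- parameters
  obtain ⟨P, hP⟩ : ∃ P : ℝ, P = H + |t0| := ⟨_, rfl⟩
  have hHP : H ≤ P := by rw [hP]; linarith [abs_nonneg t0]
  have hP1 : 1 ≤ P := hH1.trans hHP
  have hP0 : 0 < P := by linarith
  rw [← hP]
  have hδ0 : 0 < δ := by rw [hδ]; positivity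
  have hδi : δ⁻¹ = c'⁻¹ * H := by rw [hδ]; field_simp
  have hHδ : H ≤ δ⁻¹ := by
    rw [hδi]
    exact le_mul_of_one_le_left hH0.le hc'i
  have hδi1 : 1 ≤ δ⁻¹ := hH1.trans hHδ
  have hNP : 1 ≤ (N : ℝ) * P := by nlinarith
  have hNP0 : 0 < (N : ℝ) * P := by positivity
  have hQ2 : Q2 m N H t0 = (N : ℝ) ^ m * H ^ (m ^ 2) +
      (N : ℝ) ^ ((m : ℝ) / 2) * P ^ ((m : ℝ) ^ 2 / 2) := by
    unfold Q2
    rw [← hP]
  have hQa : (N : ℝ) ^ m * H ^ (m ^ 2) ≤ Q2 m N H t0 := by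
    rw [hQ2]
    have : 0 ≤ (N : ℝ) ^ ((m : ℝ) / 2) * P ^ ((m : ℝ) ^ 2 / 2) := by positivity
    linarith
  have hQb : (N : ℝ) ^ ((m : ℝ) / 2) * P ^ ((m : ℝ) ^ 2 / 2) ≤ Q2 m N H t0 := by
    rw [hQ2]
    have : 0 ≤ (N : ℝ) ^ m * H ^ (m ^ 2) := by positivity
    linarith
  have hQ0 : 0 ≤ Q2 m N H t0 := le_trans (by positivity) hQa
  -- the length
  obtain ⟨X0, hX0⟩ : ∃ X0 : ℝ, X0 = C2' * ((N : ℝ) * P ^ m) ^ (1 / 2 : ℝ) * (N * P) ^ e1 := ⟨_, rfl⟩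
  have hPm : 1 ≤ P ^ m := one_le_pow₀ hP1
  have hNPm : 1 ≤ (N : ℝ) * P ^ m := by nlinarith
  have hX01 : 1 ≤ X0 := by
    rw [hX0]
    have e1' : 1 ≤ ((N : ℝ) * P ^ m) ^ (1 / 2 : ℝ) := Real.one_le_rpow hNPm (by norm_num)
    have e2' : 1 ≤ ((N : ℝ) * P) ^ e1 := Real.one_le_rpow hNP he1.le
    calc (1 : ℝ) = 1 * 1 * 1 := by norm_num
      _ ≤ _ := by gcongr
  obtain ⟨X, hX⟩ : ∃ X : ℕ, X = ⌈X0⌉₊ := ⟨_, rfl⟩
  have hXge : X0 ≤ X := by rw [hX]; exact Nat.le_ceil _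
  have hXle : (X : ℝ) ≤ 2 * X0 := by
    rw [hX]
    have := Nat.ceil_lt_add_one (by linarith : 0 ≤ X0)
    linarith
  have hX1 : (1 : ℝ) ≤ X := hX01.trans hXge
  -- the length to the power `m`
  have hXm : (X : ℝ) ^ m ≤ (2 * C2') ^ m * (((N : ℝ) * P) ^ (m * e1)) *
      ((N : ℝ) ^ ((m : ℝ) / 2) * P ^ ((m : ℝ) ^ 2 / 2)) := by
    have e1a : (((N : ℝ) * P ^ m) ^ (1 / 2 : ℝ)) ^ m =
        (N : ℝ) ^ ((m : ℝ) / 2) * P ^ ((m : ℝ) ^ 2 / 2) := by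
      rw [← Real.rpow_natCast, ← Real.rpow_mul (by positivity), Real.mul_rpow hN0.le (by positivity),
        ← Real.rpow_natCast P m, ← Real.rpow_mul hP0.le]
      congr 1
      · congr 1
        ring
      · congr 1
        ring
    have e2a : (((N : ℝ) * P) ^ e1) ^ m = ((N : ℝ) * P) ^ (m * e1) := by
      rw [← Real.rpow_natCast, ← Real.rpow_mul hNP0.le]
      congr 1
      ring
    calc (X : ℝ) ^ m ≤ (2 * X0) ^ m := by gcongr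
      _ = (2 * C2') ^ m * (((N : ℝ) * P) ^ e1) ^ m * (((N : ℝ) * P ^ m) ^ (1 / 2 : ℝ)) ^ m := by
          rw [hX0]
          ring
      _ = _ := by rw [e1a, e2a]
  -- the product of the parameters
  have hR : (N : ℝ) * δ⁻¹ * X ≤ R0 * ((N : ℝ) * P) ^ (m + 2) := by
    have e3 : ((N : ℝ) * P ^ m) ^ (1 / 2 : ℝ) ≤ ((N : ℝ) * P) ^ m := by
      calc ((N : ℝ) * P ^ m) ^ (1 / 2 : ℝ) ≤ ((N : ℝ) * P ^ m) ^ (1 : ℝ) :=
            Real.rpow_le_rpow_of_exponent_le hNPm (by norm_num)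
        _ = (N : ℝ) * P ^ m := Real.rpow_one _
        _ ≤ (N : ℝ) ^ m * P ^ m := by
            gcongr
            exact le_self_pow₀ hN1 (by omega)
        _ = _ := (mul_pow _ _ _).symm
    have e4 : ((N : ℝ) * P) ^ e1 ≤ (N : ℝ) * P := by
      calc ((N : ℝ) * P) ^ e1 ≤ ((N : ℝ) * P) ^ (1 : ℝ) :=
            Real.rpow_le_rpow_of_exponent_le hNP he1'
        _ = _ := Real.rpow_one _
    calc (N : ℝ) * δ⁻¹ * X ≤ (N : ℝ) * (c'⁻¹ * P) * (2 * X0) := by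
          rw [hδi]
          gcongr
      _ = R0 * (((N : ℝ) * P) * ((N : ℝ) * P ^ m) ^ (1 / 2 : ℝ) * ((N : ℝ) * P) ^ e1) := by
          rw [hX0, hR0]
          ring
      _ ≤ R0 * (((N : ℝ) * P) * ((N : ℝ) * P) ^ m * ((N : ℝ) * P)) := by gcongr
      _ = _ := by ring
  have hR2 : ((N : ℝ) * δ⁻¹ * X) ^ (2 * e1) ≤ R0 ^ (2 * e1) * ((N : ℝ) * P) ^ ((2 * m + 4) * e1) := by
    calc ((N : ℝ) * δ⁻¹ * X) ^ (2 * e1) ≤ (R0 * ((N : ℝ) * P) ^ (m + 2)) ^ (2 * e1) :=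
          Real.rpow_le_rpow (by positivity) hR (by positivity)
      _ = R0 ^ (2 * e1) * ((N : ℝ) * P) ^ ((2 * m + 4) * e1) := by
          rw [Real.mul_rpow hR00.le (by positivity), ← Real.rpow_natCast ((N : ℝ) * P) (m + 2),
            ← Real.rpow_mul hNP0.le]
          congr 2
          push_cast
          ring
  -- the family
  obtain ⟨Q, hQ⟩ : ∃ Q : ℝ, Q = C1 * R0 ^ (2 * e1) * (2 ^ m * G) *
    ((N : ℝ) * P) ^ ((3 * m + 4) * e1) * Q2 m N H t0 := ⟨_, rfl⟩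
  have hQnn : 0 ≤ Q := by rw [hQ]; positivity
  have hdyd : ∀ τ : ℝ, ∑ i, ENNReal.ofReal (W i) *
      ∫⁻ t in Set.Icc (-δ⁻¹) δ⁻¹, ENNReal.ofReal (‖SD (lam i) X (t + τ)‖ ^ 2) ≤
        ENNReal.ofReal Q := by
    intro τ
    refine (hdyd0 X hX1 τ).trans (ENNReal.ofReal_le_ofReal ?_)
    have e5 : (N : ℝ) ^ m * δ⁻¹ ^ (m ^ 2) ≤ c'⁻¹ ^ (m ^ 2) * Q2 m N H t0 := by
      rw [hδi, mul_pow]
      calc (N : ℝ) ^ m * (c'⁻¹ ^ (m ^ 2) * H ^ (m ^ 2)) =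
          c'⁻¹ ^ (m ^ 2) * ((N : ℝ) ^ m * H ^ (m ^ 2)) := by ring
        _ ≤ _ := by gcongr
    have e6 : (X : ℝ) ^ m ≤ (2 * C2') ^ m * (((N : ℝ) * P) ^ (m * e1)) * Q2 m N H t0 :=
      hXm.trans (by gcongr)
    have e7 := gk_fac (Nr := N) (δi := δ⁻¹) (x := X) (m := m) hN1 (by positivity) (by positivity) e5 e6
    rw [inv_inv] at e7
    have e8 : 1 ≤ ((N : ℝ) * P) ^ (m * e1) := Real.one_le_rpow hNP (by positivity)
    have e9 : c'⁻¹ ^ (m ^ 2) * Q2 m N H t0 +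
        (2 * C2') ^ m * (((N : ℝ) * P) ^ (m * e1)) * Q2 m N H t0 ≤
        G * ((N : ℝ) * P) ^ (m * e1) * Q2 m N H t0 := by
      rw [hG, add_mul, add_mul]
      gcongr
      exact le_mul_of_one_le_right (by positivity) e8
    calc C1 * ((N : ℝ) * δ⁻¹ * X) ^ (2 * e1) * (N : ℝ) ^ m * δ⁻¹ ^ (m ^ 2) *
          (1 + δ ^ m * X / N) ^ m =
        C1 * ((N : ℝ) * δ⁻¹ * X) ^ (2 * e1) * ((N : ℝ) ^ m * δ⁻¹ ^ (m ^ 2) *
          (1 + δ ^ m * X / N) ^ m) := by ring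
      _ ≤ C1 * (R0 ^ (2 * e1) * ((N : ℝ) * P) ^ ((2 * m + 4) * e1)) *
          (2 ^ m * (G * ((N : ℝ) * P) ^ (m * e1) * Q2 m N H t0)) := by
          have e10 := e7.trans (mul_le_mul_of_nonneg_left e9 (by positivity : (0 : ℝ) ≤ 2 ^ m))
          gcongr
      _ = C1 * R0 ^ (2 * e1) * (2 ^ m * G) *
          (((N : ℝ) * P) ^ ((2 * m + 4) * e1) * ((N : ℝ) * P) ^ (m * e1)) * Q2 m N H t0 := by ring
      _ = Q := by
          rw [← Real.rpow_add hNP0, hQ]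
          congr 3
          ring
  -- one value
  obtain ⟨f, hf⟩ : ∃ f : ι → ℝ → ℝ, f = fun i u => ‖SD (lam i) X u‖ := ⟨_, rfl⟩
  have hfc : ∀ i, Continuous (f i) := fun i => by rw [hf]; exact (sd_cont (lam i) X).norm
  have hf0 : ∀ i u, 0 ≤ f i u := fun i u => by rw [hf]; exact norm_nonneg _
  have hfi : ∀ i t, Integrable (fun τ => k τ * f i (t + τ)) := by
    intro i t
    obtain ⟨Bb, hBb⟩ := sd_bdd (lam i) X
    refine krn_int4 hkc hknn hk1 (f i) (hfc i) Bb (fun u => ?_) t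
    rw [abs_of_nonneg (hf0 i u), hf]
    exact hBb u
  have hval : ∀ i, ∀ t ∈ J i, ‖L i (1 / 2 + t * Complex.I)‖ ^ 2 ≤
      (2 * C2 ^ 2 * ((N : ℝ) * P) ^ (2 * e1)) * (1 + (∫ τ : ℝ, k τ * f i (t + τ)) ^ 2) := by
    intro i t ht
    have htP : |t| ≤ P := by
      have h1 := hJH i t ht
      rw [hP]
      calc |t| = |(t - t0) + t0| := by ring_nf
        _ ≤ |t - t0| + |t0| := abs_add_le _ _
        _ ≤ _ := by linarith
    have h1 := hH N T D hSys (F i) (lam i) P (hF i).1 (hn1 i) (lip_le (hF i).2.1 hH0.le hHP) hP1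
      (L i) (hLL i) t htP X (by
        refine le_trans ?_ hXge
        rw [hX0]
        gcongr)
    have h2 : ∫ τ : ℝ, ((1 + |τ|) ^ 4)⁻¹ * ‖SX (lam i) X (1 / 2 + ((t + τ : ℝ) : ℂ) * Complex.I)‖ =
        ∫ τ : ℝ, k τ * f i (t + τ) := by
      refine integral_congr_ae (Filter.Eventually.of_forall (fun τ => ?_))
      show ((1 + |τ|) ^ 4)⁻¹ * _ = k τ * f i (t + τ)
      rw [hf, hkd]
      simp only
      rw [← sx_sd]
    rw [h2] at h1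
    have h3 : 0 ≤ ∫ τ : ℝ, k τ * f i (t + τ) :=
      integral_nonneg (fun τ => mul_nonneg (hknn τ) (hf0 i _))
    obtain ⟨I, hI⟩ : ∃ I : ℝ, I = ∫ τ : ℝ, k τ * f i (t + τ) := ⟨_, rfl⟩
    rw [← hI] at h1 h3 ⊢
    have h5 := pow_le_pow_left₀ (norm_nonneg _) h1 2
    refine h5.trans ?_
    have h6 : (1 + I) ^ 2 ≤ 2 * (1 + I ^ 2) := by
      nlinarith [sq_nonneg (I - 1)]
    have h7 : (((N : ℝ) * P) ^ e1) ^ 2 = ((N : ℝ) * P) ^ (2 * e1) := by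
      rw [← Real.rpow_natCast, ← Real.rpow_mul (by positivity)]
      congr 1
      push_cast
      ring
    calc (C2 * ((N : ℝ) * P) ^ e1 * (1 + I)) ^ 2 = C2 ^ 2 * (((N : ℝ) * P) ^ e1) ^ 2 * (1 + I) ^ 2 := by
          ring
      _ ≤ C2 ^ 2 * (((N : ℝ) * P) ^ e1) ^ 2 * (2 * (1 + I ^ 2)) := by gcongr
      _ = _ := by rw [h7]; ring
  -- the sum of the smoothed values
  have hsm : ∑ i, W i * ∑ t ∈ J i, (∫ τ : ℝ, k τ * f i (t + τ)) ^ 2 ≤ B * S2 * Q := by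
    have e5 : ENNReal.ofReal (∑ i, W i * ∑ t ∈ J i, (∫ τ : ℝ, k τ * f i (t + τ)) ^ 2) ≤
        ENNReal.ofReal (B * S2 * Q) := by
      rw [ENNReal.ofReal_sum_of_nonneg (fun i _ => mul_nonneg (hW0 i) (Finset.sum_nonneg
        (fun t _ => sq_nonneg _)))]
      calc ∑ i, ENNReal.ofReal (W i * ∑ t ∈ J i, (∫ τ : ℝ, k τ * f i (t + τ)) ^ 2) =
          ∑ i, ENNReal.ofReal (W i) *
            ∑ t ∈ J i, ENNReal.ofReal ((∫ τ : ℝ, k τ * f i (t + τ)) ^ 2) := by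
            refine Finset.sum_congr rfl (fun i _ => ?_)
            rw [ENNReal.ofReal_mul (hW0 i),
              ENNReal.ofReal_sum_of_nonneg (fun t _ => sq_nonneg _)]
        _ ≤ ∑ i, ENNReal.ofReal (W i) * ∑' j : ℤ, ENNReal.ofReal (B * ((1 + |(j : ℝ)|) ^ 2)⁻¹) *
            ∫⁻ u in Set.Icc (-δ⁻¹) δ⁻¹, ENNReal.ofReal (f i (u + (2 * j * δ⁻¹ + t0)) ^ 2) :=
            Finset.sum_le_sum (fun i _ => mul_le_mul_right (hW δ⁻¹ t0 (J i) (f i) hδi1 (hJ i)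
              (fun t ht => (hJH i t ht).trans hHδ) (hfc i) (hf0 i) (hfi i)) _)
        _ = ∑ i, ∑' j : ℤ, ENNReal.ofReal (B * ((1 + |(j : ℝ)|) ^ 2)⁻¹) *
            (ENNReal.ofReal (W i) *
              ∫⁻ u in Set.Icc (-δ⁻¹) δ⁻¹, ENNReal.ofReal (f i (u + (2 * j * δ⁻¹ + t0)) ^ 2)) := by
            refine Finset.sum_congr rfl (fun i _ => ?_)
            rw [← ENNReal.tsum_mul_left]
            refine tsum_congr (fun j => ?_)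
            rw [mul_left_comm]
        _ = ∑' j : ℤ, ∑ i, ENNReal.ofReal (B * ((1 + |(j : ℝ)|) ^ 2)⁻¹) *
            (ENNReal.ofReal (W i) *
              ∫⁻ u in Set.Icc (-δ⁻¹) δ⁻¹, ENNReal.ofReal (f i (u + (2 * j * δ⁻¹ + t0)) ^ 2)) :=
            (Summable.tsum_finsetSum (fun i _ => ENNReal.summable)).symm
        _ ≤ ∑' j : ℤ, ENNReal.ofReal (B * ((1 + |(j : ℝ)|) ^ 2)⁻¹) * ENNReal.ofReal Q := by
            refine ENNReal.tsum_le_tsum (fun j => ?_)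
            rw [← Finset.mul_sum]
            have h8 := hdyd (2 * j * δ⁻¹ + t0)
            rw [hf]
            exact mul_le_mul_right h8 _
        _ = ENNReal.ofReal (B * S2 * Q) := by
            rw [ENNReal.tsum_mul_right, ENNReal.ofReal_mul (by positivity)]
            congr 1
            rw [hS2, ← tsum_mul_left, ENNReal.ofReal_tsum_of_nonneg (fun j => by positivity)
              (summable_int_sq.mul_left B)]
    exact (ENNReal.ofReal_le_ofReal_iff (by positivity)).1 e5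
  -- the number of the points
  have hWs : 0 ≤ ∑ i, W i := Finset.sum_nonneg (fun i _ => hW0 i)
  have hct : ∑ i, W i * ∑ _t ∈ J i, (1 : ℝ) ≤
      4 * C3 * c'⁻¹ ^ e1 * c'⁻¹ ^ (m ^ 2) * ((N : ℝ) * P) ^ e1 * Q2 m N H t0 := by
    calc ∑ i, W i * ∑ _t ∈ J i, (1 : ℝ) = ∑ i, W i * ((J i).card : ℝ) := by simp
      _ ≤ ∑ i, W i * (4 * H) := Finset.sum_le_sum (fun i _ =>
          mul_le_mul_of_nonneg_left (wsp_card_win (hJ i) hH1 (hJH i)) (hW0 i))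
      _ = 4 * ((∑ i, W i) * H) := by
          rw [← Finset.sum_mul]
          ring
      _ ≤ 4 * ((∑ i, W i) * δ⁻¹) := by gcongr
      _ ≤ 4 * (C3 * ((N : ℝ) * δ⁻¹) ^ e1 * (N : ℝ) ^ m * δ⁻¹ ^ (m ^ 2)) := by gcongr
      _ = 4 * C3 * c'⁻¹ ^ e1 * c'⁻¹ ^ (m ^ 2) * ((N : ℝ) * H) ^ e1 *
          ((N : ℝ) ^ m * H ^ (m ^ 2)) := by
          rw [hδi, show (N : ℝ) * (c'⁻¹ * H) = c'⁻¹ * (N * H) by ring,
            Real.mul_rpow (by positivity) (by positivity), mul_pow]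
          ring
      _ ≤ _ := by
          have e11 : ((N : ℝ) * H) ^ e1 ≤ ((N : ℝ) * P) ^ e1 :=
            Real.rpow_le_rpow (by positivity) (by gcongr) he1.le
          gcongr
  calc ∑ i, W i * ∑ t ∈ J i, ‖L i (1 / 2 + t * Complex.I)‖ ^ 2 ≤
      ∑ i, W i * ∑ t ∈ J i, (2 * C2 ^ 2 * ((N : ℝ) * P) ^ (2 * e1)) *
        (1 + (∫ τ : ℝ, k τ * f i (t + τ)) ^ 2) :=
        Finset.sum_le_sum (fun i _ => mul_le_mul_of_nonneg_left
          (Finset.sum_le_sum (fun t ht => hval i t ht)) (hW0 i))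
    _ = (2 * C2 ^ 2 * ((N : ℝ) * P) ^ (2 * e1)) * (∑ i, W i * ∑ _t ∈ J i, (1 : ℝ) +
        ∑ i, W i * ∑ t ∈ J i, (∫ τ : ℝ, k τ * f i (t + τ)) ^ 2) := by
        rw [← Finset.sum_add_distrib, Finset.mul_sum]
        refine Finset.sum_congr rfl (fun i _ => ?_)
        rw [← mul_add, ← Finset.sum_add_distrib, ← Finset.mul_sum]
        ring
    _ ≤ (2 * C2 ^ 2 * ((N : ℝ) * P) ^ (2 * e1)) *
        (4 * C3 * c'⁻¹ ^ e1 * c'⁻¹ ^ (m ^ 2) * ((N : ℝ) * P) ^ e1 * Q2 m N H t0 + B * S2 * Q) := by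
        gcongr
    _ = 2 * C2 ^ 2 * ((4 * C3 * c'⁻¹ ^ e1 * c'⁻¹ ^ (m ^ 2)) *
          (((N : ℝ) * P) ^ (2 * e1) * ((N : ℝ) * P) ^ e1) +
        B * S2 * (C1 * R0 ^ (2 * e1) * (2 ^ m * G)) *
          (((N : ℝ) * P) ^ (2 * e1) * ((N : ℝ) * P) ^ ((3 * m + 4) * e1))) * Q2 m N H t0 := by
        rw [hQ]
        ring
    _ ≤ 2 * C2 ^ 2 * ((4 * C3 * c'⁻¹ ^ e1 * c'⁻¹ ^ (m ^ 2)) * ((N : ℝ) * P) ^ ε +
        B * S2 * (C1 * R0 ^ (2 * e1) * (2 ^ m * G)) * ((N : ℝ) * P) ^ ε) * Q2 m N H t0 := by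
        have hm0 : (0 : ℝ) ≤ m := Nat.cast_nonneg m
        have e6 : ((N : ℝ) * P) ^ (2 * e1) * ((N : ℝ) * P) ^ e1 ≤ ((N : ℝ) * P) ^ ε := by
          rw [← Real.rpow_add hNP0]
          refine Real.rpow_le_rpow_of_exponent_le hNP ?_
          nlinarith
        have e7 : ((N : ℝ) * P) ^ (2 * e1) * ((N : ℝ) * P) ^ ((3 * m + 4) * e1) ≤
            ((N : ℝ) * P) ^ ε := by
          rw [← Real.rpow_add hNP0]
          refine Real.rpow_le_rpow_of_exponent_le hNP ?_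
          nlinarith
        gcongr
    _ = K * ((N : ℝ) * P) ^ ε * Q2 m N H t0 := by
        rw [hK]
        ring
    _ ≤ (K + 1) * ((N : ℝ) * P) ^ ε * Q2 m N H t0 := by
        gcongr
        linarith

end Pool.Agent.H27.THN
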